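import Pool.Agent.Helper92.BO.GoalsA

/-!
# Stable set polytopes: invariance of the derivative under permutations (KPM)
-/

namespace Pool.Agent.Helper90.BO

open MeasureTheory Filter Topology Function
open Pool.Agent.Helper92.BO

theorem kpm (h1 : LimStmt) (h2 : PrmStmt) : KpmStmt := by
  intro G s l hs hl hl1 L L' b hp hg
  have hg' : Good L' b := fun u hu => hg u (hp.mem_iff.mpr hu)
  have t1 := h1 G s l hs hl hl1 L b hg
  have t2 := h1 G s l hs hl hl1 L' b hg'
  refine tendsto_nhds_unique t1 (t2.congr' ?_)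
  have hmem : Set.Ioc (0 : ℝ) 1 ∈ 𝓝[>] (0 : ℝ) := by
    have := Ioo_mem_nhdsGT (show (0 : ℝ) < 1 by norm_num)
    exact mem_of_superset this Set.Ioo_subset_Ioc_self
  filter_upwards [hmem] with t ht
  have hin : ∀ u ∈ L, 0 ≤ b u ∧ b u ≤ 1 := fun u hu => ⟨(hg u hu).1.le, (hg u hu).2.1⟩
  have hin2 : In01 L (gt s t b) := by
    intro u hu
    obtain ⟨h0, h1'⟩ := hin u hu
    have hq : 0 ≤ b u * (1 - b u) := mul_nonneg h0 (by linarith)
    unfold gt
    rcases hs.pm u with h | h
    · rw [h]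
      have e1 : t * (b u * (1 - b u)) ≤ 1 * (b u * (1 - b u)) :=
        mul_le_mul_of_nonneg_right ht.2 hq
      have e0 : 0 ≤ t * (b u * (1 - b u)) := mul_nonneg ht.1.le hq
      constructor <;> nlinarith
    · rw [h]
      have e1 : t * (b u * (1 - b u)) ≤ 1 * (b u * (1 - b u)) :=
        mul_le_mul_of_nonneg_right ht.2 hq
      have e0 : 0 ≤ t * (b u * (1 - b u)) := mul_nonneg ht.1.le hq
      constructor <;> nlinarith
  have e1 := (h2 G 0 l L L' b hp hin).2
  have e2 := (h2 G 0 l L L' (gt s t b) hp hin2).2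
  rw [e1, e2]

end Pool.Agent.Helper90.BO
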